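import Pool.Agent.W797.Har.Main

set_option autoImplicit false

/-!
# The capacity condition (2) implies uniform harmonic approximation (1)

For every `n ≥ 3`, every compact `K` and every continuous `f`, condition (2) implies condition (1).
The norm of order one of the problem may also be replaced by the weaker hypothesis with the norm of
any order `N`.

Idea of the proof (duality, no Vitushkin localization). Let `ℓ` be a continuous functional on
`C(K)` that annihilates the functions harmonic near `K`. Mollified twice, its Newtonian potential
is a test function `w` supported near `K`, with `∫ |Δw| ≤ c ‖ℓ‖`, and `ℓ` of a (twice mollified)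
test function `φ` is `-(1/c) ∫ w Δφ`. Take for `φ` the mollification of `f` at scale `s`. By (2),
`|Δφ(z)| ≤ η(2s) A s^(-n) C(B(z,s) \ K)`. Cover the space by cubes of side `s`, contained in
balls `B_k` of radius `(n+1)s`. It remains to bound the sum of
`s^(-n) C(B_k \ K) ∫_{cube k} |w|` by a constant times `∫ |Δw|`, uniformly in `s`.
Let `ν` be a measure on a compact subset of `B_k \ K` with potential at most one and mass at least
half of the capacity. The function `w` vanishes on its support (the mollification parameter of `w`
is chosen after the sets). For a smooth truncation `G` of the kernel, `G(z, ·)` is nonnegative, at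
most the Newtonian kernel, decays like `|y-z|^(-n-2)`, and `h(z) - average = -(∫ G(z,·) Δh)/c` for a
suitable average; with `h = sqrt(w^2+ε^2) - ε` (so `h = 0` on the support of `ν`, and
`∫ |Δh| ≤ 2 ∫ |Δw|` by Kato's inequality) integration in `ν` gives
`s^(-n) ∫_{cube k} h · ν(F_k) ≤ const ∫ (G ν) |Δh|` and the sum over `k` of the truncated
potentials `G ν_k` is bounded by a constant, as each is at most one and they decay.
-/

namespace Pool.Agent.Results.MP_7284a1_an.CapacityImpliesApprox

open Pool.Agent.W797.Har

/-- (2) implies (1), for the norm of the problem and for the norms of every order. -/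
theorem result (n : ℕ) (hn : 3 ≤ n) (K : Set (Eu n)) (hK : IsCompact K) (f : Eu n → ℝ)
    (hf : Continuous f) :
    (Cond2 K f starNorm → Cond1 K f) ∧ ∀ N : ℕ, Cond2 K f (starNormN N) → Cond1 K f := by
  have hn0 : 0 < n := by omega
  exact ⟨fun h => main_thm hn hK hf (sizeOK_star hn0) h,
    fun N h => main_thm hn hK hf (sizeOK_N hn0 N) h⟩

end Pool.Agent.Results.MP_7284a1_an.CapacityImpliesApprox
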